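import Pool.Agent.H37.MG.Asm
import Pool.Agent.H92.CZ.Cor

/-!
# THEOREM CCB, final form: groups acting on median graphs (vertex sets of `CAT(0)` cube complexes) of finite dimension

`FM X k B`: the subgroup `B` fixes two vertices at distance at least `k`. `Clo`: closures of such subgroups. `median3`: the theorem for pocsets
(from `CoreV C`) gives the theorem for median graphs.
-/

set_option autoImplicit false

namespace Pool.Agent.H37.MG

open Pool.Agent.H98.FJ Pool.Agent.H76.GT
open Pool.Agent.H37.CC (Poc st Crs IsVertex Dim PAct)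
open Pool.Agent.H92.CX (Dat sepd)
open Pool.Agent.H92.CY (Vx)
open Pool.Agent.H92.CZ (FF Pcs PcH P3 pocset3)
open Pool.Agent.H37.CE
open scoped Pointwise

/-- the subgroup `B` fixes two vertices at distance at least `k` -/
def FM {G V : Type} [Group G] [MulAction G V] (X : SimpleGraph V) (k : ℕ) (B : Subgroup G) : Prop :=
  ∃ v w : V, k ≤ X.dist v w ∧ ∀ b ∈ B, b • v = v ∧ b • w = w

/-- closures of the subgroups which fix two vertices at distance at least `k`: a monotone equivariant map `pc` to an ordered set with least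
element `o`, invariant under passing to subgroups of finite index; among the values of an increasing sequence which starts above `o` two
consecutive ones of the first `m + 1` are equal; the subgroups with value `o` have at most `N` elements -/
structure Clo {G V I : Type} [Group G] [MulAction G V] [PartialOrder I] [MulAction G I] (X : SimpleGraph V) (k N m : ℕ) (o : I)
    (pc : Subgroup G → I) : Prop where
  bot : ∀ i, o ≤ i
  mono : ∀ B B' : Subgroup G, FM X k B → FM X k B' → B ≤ B' → pc B ≤ pc B'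
  equi : ∀ (g : G) (B : Subgroup G), FM X k B → pc (B.map (MulAut.conj g).toMonoidHom) = g • pc B
  fin : ∀ B B' : Subgroup G, FM X k B → B' ≤ B → B'.relIndex B ≠ 0 → pc B' = pc B
  chain : ∀ B : ℕ → Subgroup G, (∀ i, FM X k (B i)) → (∀ i, B i ≤ B (i + 1)) → pc (B 0) ≠ o → ∃ i < m, pc (B i) = pc (B (i + 1))
  small : ∀ B : Subgroup G, FM X k B → pc B = o → (B : Set G).encard ≤ N

section

variable {G V : Type} [Group G] [MulAction G V] {X : SimpleGraph V}

theorem stab_vx (hadj : ∀ (g : G) (x y : V), X.Adj x y → X.Adj (g • x) (g • y)) (hX : Median X) (v : V) :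
    (let _ := mact hadj hX; MulAction.stabilizer G (vx v : Set (Hx X))) = MulAction.stabilizer G v := by
  let _ := mact hadj hX
  ext g
  rw [MulAction.mem_stabilizer_iff, MulAction.mem_stabilizer_iff]
  exact smul_vx_iff hadj hX g v

/-- distant fixed vertices -/
theorem fm_of_ff (hadj : ∀ (g : G) (x y : V), X.Adj x y → X.Adj (g • x) (g • y)) (hX : Median X) {x : V} {k : ℕ} {B : Subgroup G}
    (h : @FF G (Hx X) _ _ (mpoc hX) (mact hadj hX) (vx x) k B) : FM X k B := by
  let _ := mpoc hX
  let _ := mact hadj hX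
  obtain ⟨y, z, hy, hz, hk, h1⟩ := h
  obtain ⟨v, rfl⟩ := vx_ex hX hy.1 hy.2
  obtain ⟨w, rfl⟩ := vx_ex hX hz.1 hz.2
  rw [vx_dist hX v w, SimpleGraph.dist_comm] at hk
  exact ⟨v, w, hk, fun b hb => ⟨(smul_vx_iff hadj hX b v).1 (h1 b hb).1, (smul_vx_iff hadj hX b w).1 (h1 b hb).2⟩⟩

/-- the hypothesis for the pocset -/
theorem pch_of {C : (G : Type) → [Group G] → Prop} (hadj : ∀ (g : G) (x y : V), X.Adj x y → X.Adj (g • x) (g • y))
    (hX : Median X) (x : V) {I : Type} [PartialOrder I] [MulAction G I] {k N m : ℕ} {o : I} {pc : Subgroup G → I}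
    (h : Clo X k N m o pc) (hs : ∀ B : Subgroup G, FM X k B → pc B ≠ o → C (MulAction.stabilizer G (pc B))) :
    @PcH C G (Hx X) _ _ (mpoc hX) (mact hadj hX) (vx x) := by
  let _ := mpoc hX
  let _ := mact hadj hX
  have key : ∀ B : Subgroup G, FF (vx x : Set (Hx X)) k B → FM X k B := fun B hB => fm_of_ff hadj hX hB
  exact ⟨k, N, m, I, inferInstance, inferInstance, o, pc,
    { bot := h.bot
      mono := fun B B' hB hB' => h.mono B B' (key B hB) (key B' hB')
      equi := fun g B hB => h.equi g B (key B hB)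
      fin := fun B B' hB => h.fin B B' (key B hB)
      chain := fun B hB => h.chain B fun i => key _ (hB i)
      small := fun B hB => h.small B (key B hB) }, fun B hB => hs B (key B hB)⟩

theorem med_of3 {C : (G : Type) → [Group G] → Prop} (hC : Inherits C) {n : ℕ} (hP : P3 C n)
    (hadj : ∀ (g : G) (x y : V), X.Adj x y → X.Adj (g • x) (g • y)) (hX : Median X)
    (hn : ∀ f : (Fin (n + 1) → Bool) → V, ¬ IsCube X (n + 1) f) (hv : ∀ v : V, C (MulAction.stabilizer G v))
    {I : Type} [PartialOrder I] [MulAction G I] {k N m : ℕ} {o : I} {pc : Subgroup G → I}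
    (h : Clo X k N m o pc) (hs : ∀ B : Subgroup G, FM X k B → pc B ≠ o → C (MulAction.stabilizer G (pc B))) : C G := by
  let _ := mpoc hX
  let _ := mact hadj hX
  have _ := mpact hadj hX
  obtain ⟨x⟩ := hX.conn.nonempty
  refine hP G (Hx X) (vx x) ⟨vx_vertex hX x, fun g => ?_⟩ (dim_of hX hn) ?_ ?_
  · refine (vx_fin hX (g • x) x).subset ?_
    rintro h ⟨h1, h2⟩
    refine ⟨h1, fun h3 => h2 ?_⟩
    show x ∈ g⁻¹ • h.1
    rw [Set.mem_inv_smul_set_iff]
    exact h3
  · intro y hy
    obtain ⟨v, rfl⟩ := vx_ex hX hy.1 hy.2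
    have h1 := stab_vx hadj hX v
    rw [h1]
    exact hv v
  · intro K _
    exact (pch_of hadj hX x h hs).sub hC K

end

/-- **Theorem CCB**, modulo the core -/
theorem median3 {C : (G : Type) → [Group G] → Prop} (hC : Inherits C) (hP : ∀ n, P3 C n) (G : Type) [Group G]
    (h : ∀ K : Subgroup G, K.FG → ∃ (V : Type) (_ : MulAction K V) (X : SimpleGraph V) (n : ℕ) (I : Type) (_ : PartialOrder I)
      (_ : MulAction K I) (k N m : ℕ) (o : I) (pc : Subgroup K → I), Median X ∧
      (∀ (g : K) (a b : V), X.Adj a b → X.Adj (g • a) (g • b)) ∧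
      (∀ f : (Fin (n + 1) → Bool) → V, ¬ IsCube X (n + 1) f) ∧
      (∀ v : V, C (MulAction.stabilizer K v)) ∧ Clo X k N m o pc ∧
      ∀ B : Subgroup K, FM X k B → pc B ≠ o → C (MulAction.stabilizer K (pc B))) : C G := by
  refine Pool.Agent.H76.VC.of_fg hC G fun K hK => ?_
  obtain ⟨V, _, X, n, I, _, _, k, N, m, o, pc, hX, hadj, hn, hv, hc, hs⟩ := h K hK
  exact med_of3 hC (hP n) hadj hX hn hv hc hs

end Pool.Agent.H37.MG
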