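import Pool.Agent.H37.MG.Med
import Pool.Agent.H92.CX.Bas

/-!
# Median graphs, M6: the theorem for pocsets gives the theorem for median graphs
-/

set_option autoImplicit false

namespace Pool.Agent.H37.MG

open Pool.Agent.H98.FJ Pool.Agent.H76.GT
open Pool.Agent.H37.CC (Poc st Crs IsVertex Dim PAct)
open Pool.Agent.H92.CX (Dat sepd)
open scoped Pointwise

/-- the pocset form, dimension at most `n` -/
def PF (C : (G : Type) → [Group G] → Prop) (n : ℕ) : Prop :=
  ∀ (G H : Type) [Group G] [PartialOrder H] [Poc H] [MulAction G H] [PAct G H] (x0 : Set H), Dat G x0 → Dim H n →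
    (∀ y : Set H, IsVertex y → (y \ x0).Finite → C (MulAction.stabilizer G y)) →
    (∀ K : Subgroup G, K.FG → ∃ k N : ℕ, ∀ y z : Set H, IsVertex y → (y \ x0).Finite → IsVertex z → (z \ x0).Finite →
      k ≤ (z \ y).ncard → {g : G | g ∈ K ∧ g • y = y ∧ g • z = z}.encard ≤ N) → C G

theorem med_of {C : (G : Type) → [Group G] → Prop} {n : ℕ} (hP : PF C n) {G V : Type} [Group G] [MulAction G V]
    {X : SimpleGraph V} (hadj : ∀ (g : G) (x y : V), X.Adj x y → X.Adj (g • x) (g • y)) (hX : Median X)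
    (hn : ∀ f : (Fin (n + 1) → Bool) → V, ¬ IsCube X (n + 1) f) (hv : ∀ v : V, C (MulAction.stabilizer G v))
    (ha : ∀ K : Subgroup G, K.FG → ∃ k N : ℕ, ∀ v w : V, k ≤ X.dist v w →
      {g : G | g ∈ K ∧ g • v = v ∧ g • w = w}.encard ≤ N) : C G := by
  let _ := mpoc hX
  let _ := mact hadj hX
  have _ := mpact hadj hX
  obtain ⟨x⟩ := hX.conn.nonempty
  have hstab : ∀ v : V, MulAction.stabilizer G (vx v : Set (Hx X)) = MulAction.stabilizer G v := by
    intro v
    ext g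
    rw [MulAction.mem_stabilizer_iff, MulAction.mem_stabilizer_iff]
    exact smul_vx_iff hadj hX g v
  refine hP G (Hx X) (vx x) ⟨vx_vertex hX x, fun g => ?_⟩ (dim_of hX hn) ?_ ?_
  · refine (vx_fin hX (g • x) x).subset ?_
    rintro h ⟨h1, h2⟩
    refine ⟨h1, fun h3 => h2 ?_⟩
    show x ∈ g⁻¹ • h.1
    rw [Set.mem_inv_smul_set_iff]
    exact h3
  · intro y hy hf
    obtain ⟨v, rfl⟩ := vx_ex hX hy hf
    rw [hstab v]
    exact hv v
  · intro K hK
    obtain ⟨k, N, hkN⟩ := ha K hK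
    refine ⟨k, N, fun y z hy hyf hz hzf hkd => ?_⟩
    obtain ⟨v, rfl⟩ := vx_ex hX hy hyf
    obtain ⟨w, rfl⟩ := vx_ex hX hz hzf
    rw [vx_dist hX v w, SimpleGraph.dist_comm] at hkd
    refine (Set.encard_le_encard ?_).trans (hkN v w hkd)
    rintro g ⟨h1, h2, h3⟩
    exact ⟨h1, (smul_vx_iff hadj hX g v).1 h2, (smul_vx_iff hadj hX g w).1 h3⟩

/-- the local form: every finitely generated subgroup has its own complex -/
theorem med_local {C : (G : Type) → [Group G] → Prop} (hC : Inherits C) (hP : ∀ n, PF C n) (G : Type) [Group G]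
    (h : ∀ K : Subgroup G, K.FG → ∃ (V : Type) (_ : MulAction K V) (X : SimpleGraph V) (n k N : ℕ), Median X ∧
      (∀ (g : K) (x y : V), X.Adj x y → X.Adj (g • x) (g • y)) ∧
      (∀ f : (Fin (n + 1) → Bool) → V, ¬ IsCube X (n + 1) f) ∧
      (∀ v : V, C (MulAction.stabilizer K v)) ∧
      (∀ v w : V, k ≤ X.dist v w → {g : K | g • v = v ∧ g • w = w}.encard ≤ N)) : C G := by
  refine Pool.Agent.H76.VC.of_fg hC G fun K hK => ?_
  obtain ⟨V, _, X, n, k, N, hX, hadj, hn, hv, ha⟩ := h K hK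
  refine med_of (hP n) hadj hX hn hv fun L _ => ⟨k, N, fun v w hd => ?_⟩
  refine (Set.encard_le_encard ?_).trans (ha v w hd)
  rintro g ⟨_, h2, h3⟩
  exact ⟨h2, h3⟩

end Pool.Agent.H37.MG
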