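import Pool.Agent.H37.MG.Dual

/-!
# Median graphs, M4: pairwise crossing half-spaces span a cube

`h i`, `i : Fin d`, in `Hf X`, pairwise crossing. Among the vertices `x` outside all `h i` (there is one: start with any vertex; the
ultrafilter obtained from `x` by replacing all half-spaces `k ∋ x` such that `k ⊆ (h i)` .. : simplest: choose `x` with the smallest number
of `i` with `x ∈ h i`; if `x ∈ h i`, cross to the other side: the set `{k ∈ Hf X : x ∈ k, not k ⊆ h i} ∪ {k : (h i)ᶜ ⊆ k}` is an ultrafilter at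
finite distance from `x`, so a vertex `x'` (`dual`), `x' ∉ h i`; a half-space `h j`, `x ∉ h j`, is not entered: `x' ∈ h j` would give
`(h i)ᶜ ⊆ h j`) choose one with the smallest sum of the numbers `#{k ∈ Hf X : h i ⊆ k, x ∉ k}`. All these numbers are `1`: otherwise take a
maximal `k ⊃ h i`, `x ∉ k`; it is not one of the `h j`; cross it (`avail`): the neighbour `x'` is outside all `h j` (`sep_adj`) and has a
smaller sum. So (`avail`) `h i = Wd (b i) x`. For `a : Fin d → Bool` the set `{k ∈ Hf X : x ∈ k, k ≠ (h i)ᶜ if a i} ∪ {h i : a i}` is an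
ultrafilter (closed upwards: `h i ⊂ k`, `x ∉ k` is impossible, `k ∌ x`; `k ∋ x`, `k ⊆ l`, `l = (h i)ᶜ`: then `h i ⊆ kᶜ ∌ x`, so `kᶜ = h i`; `h i ⊆ (h j)ᶜ` is excluded), at
finite distance from `x`: a vertex `f a`. Two of them are separated by the half-spaces `h i` with `a i ≠ b i` and their complements only:
`dist (f a) (f b)` = the number of these `i` (`sep_card`): adjacent iff there is exactly one.
-/

set_option autoImplicit false

namespace Pool.Agent.H37.MG

variable {V : Type} {X : SimpleGraph V}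

private theorem cub_flip (hX : Median X) {w : Set V} {x : V} {z : V} (hz : z ∉ w) :
    Ult X {k | k ∈ Hf X ∧ ((x ∈ k ∧ ¬ k ⊆ w) ∨ wᶜ ⊆ k)} ∧ {k | k ∈ {k | k ∈ Hf X ∧ ((x ∈ k ∧ ¬ k ⊆ w) ∨ wᶜ ⊆ k)} ∧ x ∉ k}.Finite := by
  refine ⟨⟨fun k hk => hk.1, ?_, ?_⟩, ?_⟩
  · intro k hk
    have hk' := compl_hf hX hk
    constructor
    · rintro ⟨-, h1⟩ ⟨-, h2⟩
      rcases h1 with ⟨h1, h3⟩ | h1
      · rcases h2 with ⟨h2, -⟩ | h2
        · exact h1 h2
        · exact h3 (Set.compl_subset_comm.1 h2)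
      · rw [Set.compl_subset_compl] at h1
        rcases h2 with ⟨-, h2⟩ | h2
        · exact h2 h1
        · exact hz (h1 (h2 hz))
    · intro h1
      refine ⟨hk', ?_⟩
      by_cases h2 : k ⊆ w
      · exact Or.inr (Set.compl_subset_compl.2 h2)
      · refine Or.inl ⟨fun h3 => h1 ⟨hk, Or.inl ⟨h3, h2⟩⟩, fun h3 => h1 ⟨hk, Or.inr (Set.compl_subset_comm.1 h3)⟩⟩
  · rintro k ⟨-, hk⟩ l hl hkl
    refine ⟨hl, ?_⟩
    rcases hk with ⟨h1, h2⟩ | h1
    · exact Or.inl ⟨hkl h1, fun h3 => h2 (hkl.trans h3)⟩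
    · exact Or.inr (h1.trans hkl)
  · refine (sep_fin hX z x).subset ?_
    rintro k ⟨⟨hk, h1⟩, h2⟩
    rcases h1 with ⟨h1, -⟩ | h1
    · exact absurd h1 h2
    · exact ⟨hk, h1 hz, h2⟩

private theorem cub_out (hX : Median X) {d : ℕ} (h : Fin d → Set V) (hh : ∀ i, h i ∈ Hf X)
    (hc : ∀ i j, i ≠ j → Crosses (h i) (h j)) : ∃ x : V, ∀ i, x ∉ h i := by
  have hcn : ∀ i, ∃ z, z ∉ h i := fun i => hf_nonempty (compl_hf hX (hh i))
  have key : ∀ s : Finset (Fin d), ∃ x : V, ∀ i ∈ s, x ∉ h i := by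
    intro s
    induction s using Finset.induction_on with
    | empty =>
      obtain ⟨x⟩ := hX.conn.nonempty
      exact ⟨x, fun i hi => absurd hi (Finset.notMem_empty i)⟩
    | insert i s hi ih =>
      obtain ⟨x, hx⟩ := ih
      by_cases hxi : x ∈ h i
      swap
      · refine ⟨x, fun j hj => ?_⟩
        rcases Finset.mem_insert.1 hj with rfl | hj
        · exact hxi
        · exact hx j hj
      obtain ⟨z, hz⟩ := hcn i
      obtain ⟨hU, hf⟩ := cub_flip hX (w := h i) (x := x) hz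
      obtain ⟨x', hx'⟩ := dual hX hU hf
      refine ⟨x', fun j hj => ?_⟩
      rw [← hx' (h j) (hh j)]
      rintro ⟨-, h1⟩
      rcases Finset.mem_insert.1 hj with rfl | hj
      · rcases h1 with ⟨-, h1⟩ | h1
        · exact h1 subset_rfl
        · exact hz (h1 hz)
      · rcases h1 with ⟨h1, -⟩ | h1
        · exact hx j hj h1
        · have hne : i ≠ j := by
            rintro rfl
            exact hi hj
          obtain ⟨u, hu1, hu2⟩ := (hc i j hne).2.2.2
          exact hu2 (h1 hu1)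
  obtain ⟨x, hx⟩ := key Finset.univ
  exact ⟨x, fun i => hx i (Finset.mem_univ i)⟩

/-- the half-spaces above `w` which do not contain `x` -/
private def Ab (X : SimpleGraph V) (w : Set V) (x : V) : Set (Set V) := {k | k ∈ Hf X ∧ w ⊆ k ∧ x ∉ k}

private theorem ab_fin (hX : Median X) {w : Set V} (hw : w.Nonempty) (x : V) : (Ab X w x).Finite := by
  obtain ⟨z, hz⟩ := hw
  refine (sep_fin hX z x).subset ?_
  rintro k ⟨h1, h2, h3⟩
  exact ⟨h1, h2 hz, h3⟩

private theorem cub_min (hX : Median X) {d : ℕ} (h : Fin d → Set V) (hh : ∀ i, h i ∈ Hf X)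
    (hc : ∀ i j, i ≠ j → Crosses (h i) (h j)) : ∃ x : V, (∀ i, x ∉ h i) ∧
      ∀ i, ∀ k ∈ Hf X, h i ⊆ k → x ∉ k → k = h i := by
  have hne : ∀ i, (h i).Nonempty := fun i => hf_nonempty (hh i)
  have key : ∀ n : ℕ, ∀ x : V, (∀ i, x ∉ h i) → ∑ i, (Ab X (h i) x).ncard ≤ n → ∃ x : V, (∀ i, x ∉ h i) ∧
      ∀ i, ∀ k ∈ Hf X, h i ⊆ k → x ∉ k → k = h i := by
    intro n
    induction n with
    | zero =>
      intro x hx hn
      refine ⟨x, hx, fun i k hk h1 h2 => ?_⟩
      exfalso
      have h3 : (Ab X (h i) x).ncard ≤ ∑ i, (Ab X (h i) x).ncard :=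
        Finset.single_le_sum (f := fun i => (Ab X (h i) x).ncard) (fun _ _ => Nat.zero_le _) (Finset.mem_univ i)
      have h4 : (Ab X (h i) x).ncard = 0 := by omega
      rw [Set.ncard_eq_zero (ab_fin hX (hne i) x)] at h4
      have h5 : k ∈ Ab X (h i) x := ⟨hk, h1, h2⟩
      rw [h4] at h5
      exact h5
    | succ n ih =>
      intro x hx hn
      by_cases hall : ∀ i, ∀ k ∈ Hf X, h i ⊆ k → x ∉ k → k = h i
      · exact ⟨x, hx, hall⟩
      push Not at hall
      obtain ⟨i, k0, hk0, h1, h2, h3⟩ := hall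
      have hfin : {k | k ∈ Ab X (h i) x ∧ k ≠ h i}.Finite := (ab_fin hX (hne i) x).subset fun k hk => hk.1
      obtain ⟨k, hk, hkmax⟩ := hfin.exists_maximal ⟨k0, ⟨hk0, h1, h2⟩, h3⟩
      obtain ⟨⟨hkH, hik, hxk⟩, hki⟩ := hk
      have hcne : ∃ z, z ∉ kᶜ := by
        obtain ⟨z, hz⟩ := hne i
        exact ⟨z, fun h4 => h4 (hik hz)⟩
      obtain ⟨z, hz⟩ := hcne
      obtain ⟨hU, -⟩ := cub_flip hX (w := kᶜ) (x := x) hz
      obtain ⟨b, hxb, hkb⟩ := avail hX hU (x := x) (h := k) ⟨hkH, Or.inr (by rw [compl_compl])⟩ hxk (by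
        rintro l ⟨hl, -⟩ hkl
        by_contra hxl
        have h4 : l ∈ {k | k ∈ Ab X (h i) x ∧ k ≠ h i} := by
          refine ⟨⟨hl, hik.trans hkl.1, hxl⟩, ?_⟩
          rintro rfl
          exact hkl.2 hik
        exact hkl.2 (hkmax h4 hkl.1))
      have hs1 : ∀ l ∈ Hf X, x ∈ l → b ∉ l → l = kᶜ := by
        intro l hl h4 h5
        rw [hkb, compl_wd hX hxb.symm]
        exact sep_adj hX hxb hl h4 h5
      have hs2 : ∀ l ∈ Hf X, b ∈ l → x ∉ l → l = k := by
        intro l hl h4 h5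
        rw [hkb]
        exact sep_adj hX hxb.symm hl h4 h5
      have hbk : b ∈ k := by
        rw [hkb]
        show X.dist b b < X.dist b x
        rw [SimpleGraph.dist_self, SimpleGraph.dist_eq_one_iff_adj.2 hxb.symm]
        exact one_pos
      refine ih b (fun j hj => ?_) ?_
      · have h4 := hs2 (h j) (hh j) hj (hx j)
        have hij : i ≠ j := by
          rintro rfl
          exact hki h4.symm
        obtain ⟨u, hu1, hu2⟩ := (hc i j hij).2.1
        rw [h4] at hu2
        exact hu2 (hik hu1)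
      · have hsub : ∀ j, Ab X (h j) b ⊆ Ab X (h j) x := by
          rintro j l ⟨hl, h4, h5⟩
          refine ⟨hl, h4, fun h6 => ?_⟩
          have h7 := hs1 l hl h6 h5
          rw [h7] at h4
          by_cases hij : i = j
          · subst hij
            obtain ⟨u, hu⟩ := hne i
            exact h4 hu (hik hu)
          · obtain ⟨u, hu1, hu2⟩ := (hc i j hij).1
            exact h4 hu2 (hik hu1)
        have hlt : ∑ j, (Ab X (h j) b).ncard < ∑ j, (Ab X (h j) x).ncard := by
          refine Finset.sum_lt_sum (fun j _ => Set.ncard_le_ncard (hsub j) (ab_fin hX (hne j) x))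
            ⟨i, Finset.mem_univ i, Set.ncard_lt_ncard ⟨hsub i, fun h4 => ?_⟩ (ab_fin hX (hne i) x)⟩
          have h5 : k ∈ Ab X (h i) b := h4 ⟨hkH, hik, hxk⟩
          exact h5.2.2 hbk
        omega
  obtain ⟨x, hx⟩ := cub_out hX h hh hc
  exact key _ x hx le_rfl

theorem exists_cube (hX : Median X) {d : ℕ} (h : Fin d → Set V) (hh : ∀ i, h i ∈ Hf X)
    (hc : ∀ i j, i ≠ j → Crosses (h i) (h j)) : ∃ f : (Fin d → Bool) → V, IsCube X d f := by
  classical
  obtain ⟨x, hx, hmin⟩ := cub_min hX h hh hc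
  have hne : ∀ i, (h i).Nonempty := fun i => hf_nonempty (hh i)
  have hinj : Function.Injective h := by
    intro i j e
    by_contra hij
    obtain ⟨u, hu1, hu2⟩ := (hc i j hij).2.1
    rw [← e] at hu2
    exact hu2 hu1
  have hdj : ∀ i j, ¬ h i ⊆ (h j)ᶜ := by
    intro i j e
    by_cases hij : i = j
    · subst hij
      obtain ⟨u, hu⟩ := hne i
      exact e hu hu
    · obtain ⟨u, hu1, hu2⟩ := (hc i j hij).1
      exact e hu1 hu2
  have hcp : ∀ i j, h i ≠ (h j)ᶜ := fun i j e => hdj i j e.le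
  obtain ⟨U, hUd⟩ : ∃ U : (Fin d → Bool) → Set (Set V), U = fun a => {k | k ∈ Hf X ∧
    ((x ∈ k ∧ ∀ i, a i = true → k ≠ (h i)ᶜ) ∨ ∃ i, a i = true ∧ k = h i)} := ⟨_, rfl⟩
  have hU : ∀ a, Ult X (U a) := by
    intro a
    rw [hUd]
    refine ⟨fun k hk => hk.1, ?_, ?_⟩
    · intro k hk
      constructor
      · rintro ⟨-, h1⟩ ⟨-, h2⟩
        rcases h1 with ⟨h1, h3⟩ | ⟨i, hi, h1⟩
        · rcases h2 with ⟨h2, -⟩ | ⟨i, hi, h2⟩
          · exact h1 h2
          · exact h3 i hi (by rw [h2])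
        · have h4 : k = (h i)ᶜ := by rw [← h1, compl_compl]
          rcases h2 with ⟨-, h2⟩ | ⟨j, hj, h2⟩
          · exact h2 i hi h4
          · exact hcp j i (h2.symm.trans h4)
      · intro h1
        refine ⟨compl_hf hX hk, ?_⟩
        by_cases h2 : x ∈ k
        · by_contra h3
          push Not at h3
          refine h1 ⟨hk, Or.inl ⟨h2, fun i hi e => ?_⟩⟩
          exact h3.2 i hi (by rw [e, compl_compl])
        · refine Or.inl ⟨h2, fun i hi e => ?_⟩
          exact h1 ⟨hk, Or.inr ⟨i, hi, compl_injective e⟩⟩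
    · rintro k ⟨hk, h1⟩ l hl hkl
      refine ⟨hl, ?_⟩
      rcases h1 with ⟨h1, h2⟩ | ⟨i, hi, h1⟩
      · refine Or.inl ⟨hkl h1, fun i hi e => ?_⟩
        have h3 : h i ⊆ kᶜ := by
          rw [Set.subset_compl_comm, ← e]
          exact hkl
        have h4 := hmin i kᶜ (compl_hf hX hk) h3 fun h5 => h5 h1
        exact h2 i hi (by rw [← h4, compl_compl])
      · rw [h1] at hkl
        by_cases h2 : x ∈ l
        · refine Or.inl ⟨h2, fun j hj e => ?_⟩
          rw [e] at hkl
          exact hdj i j hkl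
        · exact Or.inr ⟨i, hi, hmin i l hl hkl h2⟩
  have hfin : ∀ a, {k | k ∈ U a ∧ x ∉ k}.Finite := by
    intro a
    refine (Set.finite_range h).subset ?_
    rw [hUd]
    rintro k ⟨⟨-, h1⟩, h2⟩
    rcases h1 with ⟨h1, -⟩ | ⟨i, -, h1⟩
    · exact absurd h1 h2
    · exact ⟨i, h1.symm⟩
  choose f hf using fun a => dual hX (hU a) (hfin a)
  have hmem : ∀ a i, f a ∈ h i ↔ a i = true := by
    intro a i
    rw [← hf a (h i) (hh i), hUd]
    constructor
    · rintro ⟨-, h1⟩
      rcases h1 with ⟨h1, -⟩ | ⟨j, hj, h1⟩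
      · exact absurd h1 (hx i)
      · rw [hinj h1]
        exact hj
    · intro h1
      exact ⟨hh i, Or.inr ⟨i, h1, rfl⟩⟩
  have hoth : ∀ a, ∀ k ∈ Hf X, (∀ i, k ≠ h i) → (∀ i, k ≠ (h i)ᶜ) → (f a ∈ k ↔ x ∈ k) := by
    intro a k hk h1 h2
    rw [← hf a k hk, hUd]
    constructor
    · rintro ⟨-, h3⟩
      rcases h3 with ⟨h3, -⟩ | ⟨j, -, h3⟩
      · exact h3
      · exact absurd h3 (h1 j)
    · intro h3
      exact ⟨hk, Or.inl ⟨h3, fun i _ => h2 i⟩⟩
  refine ⟨f, fun a b e => ?_, fun a b => ?_⟩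
  · funext i
    have h1 := hmem a i
    rw [e, hmem b i] at h1
    by_cases h2 : a i = true
    · rw [h2, h1.2 h2]
    · rw [Bool.not_eq_true] at h2
      have h3 : b i ≠ true := fun h4 => by
        rw [h1.1 h4] at h2
        exact Bool.noConfusion h2
      rw [h2, Bool.eq_false_iff.2 h3]
  · obtain ⟨g, hgd⟩ : ∃ g : Fin d → Set V, g = fun i => if a i = true then h i else (h i)ᶜ := ⟨_, rfl⟩
    have hg : Function.Injective g := by
      intro i j e
      rw [hgd] at e
      simp only at e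
      split_ifs at e with h1 h2 h2
      · exact hinj e
      · exact absurd e (hcp i j)
      · exact absurd e.symm (hcp j i)
      · exact hinj (compl_injective e)
    have hset : {k | k ∈ Hf X ∧ f a ∈ k ∧ f b ∉ k} = g '' {i | a i ≠ b i} := by
      ext k
      constructor
      · rintro ⟨hk, h1, h2⟩
        by_cases h3 : ∃ i, k = h i
        · obtain ⟨i, rfl⟩ := h3
          rw [hmem] at h1 h2
          refine ⟨i, fun e => h2 (e ▸ h1), ?_⟩
          rw [hgd]
          simp only [if_pos h1]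
        · by_cases h4 : ∃ i, k = (h i)ᶜ
          · obtain ⟨i, rfl⟩ := h4
            rw [Set.mem_compl_iff, hmem] at h1
            rw [Set.mem_compl_iff, not_not, hmem] at h2
            refine ⟨i, fun e => h1 (e ▸ h2), ?_⟩
            rw [hgd]
            simp only [if_neg h1]
          · push Not at h3 h4
            rw [hoth a k hk h3 h4] at h1
            rw [hoth b k hk h3 h4] at h2
            exact absurd h1 h2
      · rintro ⟨i, hi, rfl⟩
        have hi' : a i ≠ b i := hi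
        rw [hgd]
        by_cases h1 : a i = true
        · simp only [if_pos h1]
          refine ⟨hh i, (hmem a i).2 h1, fun h2 => ?_⟩
          rw [hmem] at h2
          exact hi' (h1.trans h2.symm)
        · simp only [if_neg h1]
          refine ⟨compl_hf hX (hh i), fun h2 => h1 ((hmem a i).1 h2), fun h2 => ?_⟩
          have h3 : b i ≠ true := fun h4 => h2 ((hmem b i).2 h4)
          exact hi' ((Bool.eq_false_iff.2 h1).trans (Bool.eq_false_iff.2 h3).symm)
    rw [← SimpleGraph.dist_eq_one_iff_adj, ← sep_card hX, hset, Set.ncard_image_of_injective _ hg, Set.ncard_eq_one]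
    constructor
    · rintro ⟨i, hi⟩
      refine ⟨i, ?_, fun j hj => ?_⟩
      · have h1 : i ∈ {i | a i ≠ b i} := by
          rw [hi]
          rfl
        exact h1
      · by_contra h1
        have h2 : j ∈ {i | a i ≠ b i} := h1
        rw [hi] at h2
        exact hj h2
    · rintro ⟨i, hi, h1⟩
      refine ⟨i, ?_⟩
      ext j
      constructor
      · intro h2
        by_contra h3
        exact h2 (h1 j h3)
      · intro h2
        have h3 : j = i := h2
        rw [h3]
        exact hi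

end Pool.Agent.H37.MG
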