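import Mathlib

/-!
# Median graphs (the 1-skeleta of CAT(0) cube complexes): definitions

`Median X`: `X` is connected and every three vertices have exactly one median. `IsCube X d f`: `f` is an embedding of the
`d`-dimensional cube as an induced subgraph. `Wd X a b`: the vertices which are closer to `a` than to `b`. `Hf X`: the half-spaces,
the sets `Wd X a b` for the edges `a b`.
-/

set_option autoImplicit false

namespace Pool.Agent.H37.MG

/-- median graphs -/
structure Median {V : Type} (X : SimpleGraph V) : Prop where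
  conn : X.Connected
  med : ∀ x y z : V, ∃! m : V, X.dist x m + X.dist m y = X.dist x y ∧ X.dist y m + X.dist m z = X.dist y z ∧
    X.dist x m + X.dist m z = X.dist x z

/-- cubes in a graph -/
def IsCube {V : Type} (X : SimpleGraph V) (d : ℕ) (f : (Fin d → Bool) → V) : Prop :=
  Function.Injective f ∧ ∀ a b : Fin d → Bool, X.Adj (f a) (f b) ↔ ∃ i, a i ≠ b i ∧ ∀ j, j ≠ i → a j = b j

/-- the vertices which are closer to `a` than to `b` -/
def Wd {V : Type} (X : SimpleGraph V) (a b : V) : Set V := {z | X.dist z a < X.dist z b}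

/-- the half-spaces -/
def Hf {V : Type} (X : SimpleGraph V) : Set (Set V) := {h | ∃ a b, X.Adj a b ∧ h = Wd X a b}

/-- crossing subsets -/
def Crosses {V : Type} (h k : Set V) : Prop := (h ∩ k).Nonempty ∧ (h ∩ kᶜ).Nonempty ∧ (hᶜ ∩ k).Nonempty ∧ (hᶜ ∩ kᶜ).Nonempty

end Pool.Agent.H37.MG
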