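import Pool.Agent.H37.MG.Sep

/-!
# Median graphs, M3: ultrafilters at finite distance are vertices (Roller, Sageev)

`avail`: let `U` be an ultrafilter, `h ∈ U`, `x ∉ h`, and no `k ∈ U` with `h ⊂ k`, `x ∉ k`. Choose an edge `b a` with `h = Wd b a` (`b ∈ h`,
`a ∉ h`) and `dist x a` minimal. If `a ≠ x` let `a'` be the neighbour of `a` on a geodesic to `x`, `k = Wd a a'`: `x ∉ k`. If some `z ∈ h`, `z ∉ k`:
`exists_square` gives an edge `c a'` with `Wd c a' = h`, and `a'` is closer: contradiction. So `h ⊆ k`, `a ∈ k`, `a ∉ h`: `h ⊂ k`, `k ∈ U`,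
contradiction. So `a = x`.
`dual`: induction on the number of `h ∈ U` with `x ∉ h`: take a maximal one (finite set), `avail` gives the neighbour `b` of `x` with
`h = Wd b x`; `b` is in all half-spaces of `U` which contain `x` (`sep_adj`; `hᶜ ∉ U`) and in `h`.
-/

set_option autoImplicit false

namespace Pool.Agent.H37.MG

variable {V : Type} {X : SimpleGraph V}

/-- ultrafilters of half-spaces -/
structure Ult (X : SimpleGraph V) (U : Set (Set V)) : Prop where
  sub : U ⊆ Hf X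
  one : ∀ h ∈ Hf X, hᶜ ∈ U ↔ h ∉ U
  up : ∀ h ∈ U, ∀ k ∈ Hf X, h ⊆ k → k ∈ U

theorem self_mem_wd {a b : V} (h : X.Adj a b) : a ∈ Wd X a b := by
  show X.dist a a < X.dist a b
  rw [SimpleGraph.dist_self, SimpleGraph.dist_eq_one_iff_adj.2 h]
  exact Nat.zero_lt_one

theorem notMem_wd {a b : V} : b ∉ Wd X a b := by
  intro h
  have h1 : X.dist b a < X.dist b b := h
  rw [SimpleGraph.dist_self] at h1
  exact absurd h1 (Nat.not_lt_zero _)

/-- a neighbour on a geodesic -/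
theorem exists_nb (hX : Median X) {a x : V} (h : a ≠ x) : ∃ a', X.Adj a a' ∧ X.dist x a' < X.dist x a := by
  obtain ⟨p, hp⟩ := hX.conn.exists_walk_length_eq_dist a x
  cases p with
  | nil => exact absurd rfl h
  | cons e q =>
    rename_i a'
    refine ⟨a', e, ?_⟩
    have h1 := SimpleGraph.dist_le q
    rw [SimpleGraph.Walk.length_cons] at hp
    rw [SimpleGraph.dist_comm, SimpleGraph.dist_comm (u := x)]
    omega

theorem avail (hX : Median X) {U : Set (Set V)} (hU : Ult X U) {x : V} {h : Set V} (hh : h ∈ U) (hx : x ∉ h)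
    (hm : ∀ k ∈ U, h ⊂ k → x ∈ k) : ∃ b, X.Adj x b ∧ h = Wd X b x := by
  classical
  have hex : ∃ n : ℕ, ∃ a b, X.Adj b a ∧ h = Wd X b a ∧ X.dist x a = n := by
    obtain ⟨b, a, h1, h2⟩ := hU.sub hh
    exact ⟨_, a, b, h1, h2, rfl⟩
  obtain ⟨a, b, hab, hw, hd⟩ := Nat.find_spec hex
  have hmin : ∀ a' b', X.Adj b' a' → h = Wd X b' a' → X.dist x a ≤ X.dist x a' := by
    intro a' b' h1 h2
    rw [hd]
    exact Nat.find_min' hex ⟨a', b', h1, h2, rfl⟩
  by_cases hax : a = x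
  · subst hax
    exact ⟨b, hab.symm, hw⟩
  exfalso
  obtain ⟨a', haa, hlt⟩ := exists_nb hX hax
  have hxk : x ∉ Wd X a a' := fun h1 => absurd hlt (Nat.lt_asymm h1)
  have hba : b ≠ a' := by
    rintro rfl
    apply hx
    rw [hw]
    exact hlt
  have hsub : h ⊆ Wd X a a' := by
    intro z hz
    by_contra hzk
    have h1 : z ∈ Wd X b a := by rw [← hw]; exact hz
    have h2 : z ∈ Wd X a' a := by
      rw [← compl_wd hX haa]
      exact hzk
    obtain ⟨c, _, h4, _, h6⟩ := exists_square hX hab.symm haa h1 h2 hba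
    have h7 := hmin a' c h4.symm (by rw [h6]; exact hw)
    omega
  have hss : h ⊂ Wd X a a' := by
    refine ⟨hsub, fun h1 => ?_⟩
    have h2 := h1 (self_mem_wd haa)
    rw [hw] at h2
    exact notMem_wd h2
  exact hxk (hm _ (hU.up h hh _ ⟨a, a', haa, rfl⟩ hsub) hss)

theorem dual (hX : Median X) {U : Set (Set V)} (hU : Ult X U) {x : V} (hf : {h | h ∈ U ∧ x ∉ h}.Finite) :
    ∃ z : V, ∀ h ∈ Hf X, h ∈ U ↔ z ∈ h := by
  obtain ⟨n, hn⟩ : ∃ n, {h | h ∈ U ∧ x ∉ h}.ncard = n := ⟨_, rfl⟩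
  induction n using Nat.strong_induction_on generalizing x with
  | _ n ih =>
    rcases Set.eq_empty_or_nonempty {h | h ∈ U ∧ x ∉ h} with h0 | hne
    · refine ⟨x, fun h hh => ⟨fun h1 => ?_, fun h1 => ?_⟩⟩
      · by_contra h2
        have h3 : h ∈ {h | h ∈ U ∧ x ∉ h} := ⟨h1, h2⟩
        rw [h0] at h3
        exact h3
      · by_contra h2
        have h3 : hᶜ ∈ {h | h ∈ U ∧ x ∉ h} := ⟨(hU.one h hh).2 h2, fun h4 => h4 h1⟩
        rw [h0] at h3
        exact h3
    · obtain ⟨h, hmax⟩ := hf.exists_maximal hne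
      obtain ⟨hh, hx⟩ := hmax.prop
      obtain ⟨b, hab, hw⟩ := avail hX hU hh hx fun k hk hlt => by
        by_contra hxk
        exact absurd (hmax.le_of_ge ⟨hk, hxk⟩ hlt.1) hlt.2
      have hb : b ∈ h := by
        rw [hw]
        exact self_mem_wd hab.symm
      have hsub : {k | k ∈ U ∧ b ∉ k} ⊆ {h | h ∈ U ∧ x ∉ h} := by
        rintro k ⟨hk, hbk⟩
        refine ⟨hk, fun hxk => ?_⟩
        have h1 := sep_adj hX hab (hU.sub hk) hxk hbk
        have h2 : hᶜ = k := by rw [h1, hw, compl_wd hX hab.symm]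
        exact (hU.one h (hU.sub hh)).1 (by rw [h2]; exact hk) hh
      have hlt : {k | k ∈ U ∧ b ∉ k}.ncard < n := by
        rw [← hn]
        refine Set.ncard_lt_ncard ⟨hsub, fun h1 => ?_⟩ hf
        exact (h1 ⟨hh, hx⟩ : h ∈ {k | k ∈ U ∧ b ∉ k}).2 hb
      exact ih _ hlt (hf.subset hsub) rfl

/-- vertices are determined by their half-spaces -/
theorem eq_of_hf (hX : Median X) {x y : V} (h : ∀ k ∈ Hf X, x ∈ k ↔ y ∈ k) : x = y := by
  have h1 := sep_card hX x y
  have h2 : {h | h ∈ Hf X ∧ x ∈ h ∧ y ∉ h} = ∅ := by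
    rw [Set.eq_empty_iff_forall_notMem]
    rintro k ⟨hk, h3, h4⟩
    exact h4 ((h k hk).1 h3)
  rw [h2, Set.ncard_empty] at h1
  exact hX.conn.dist_eq_zero_iff.1 h1.symm

end Pool.Agent.H37.MG
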