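import Pool.Agent.H37.MG.Asm
import Pool.Agent.H92.CY.Cor

/-!
# THEOREM CCA, final form: groups acting on median graphs (vertex sets of `CAT(0)` cube complexes) of finite dimension
-/

set_option autoImplicit false

namespace Pool.Agent.H37.MG

open Pool.Agent.H98.FJ Pool.Agent.H76.GT
open Pool.Agent.H37.CC (Poc st Crs IsVertex Dim PAct)
open Pool.Agent.H92.CX (Dat sepd)
open scoped Pointwise

theorem pf_all {C : (G : Type) → [Group G] → Prop} (hC : Inherits C) (hT : Transfer C) (n : ℕ) : PF C n := by
  intro G H _ _ _ _ _ x0 hd hD hv ha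
  refine Pool.Agent.H92.CY.pocset hC hT n G H x0 hd hD (fun y hy => hv y hy.1 hy.2) fun K hK => ?_
  obtain ⟨k, N, h⟩ := ha K hK
  exact ⟨k, N, fun y z hy hz hk => h y z hy.1 hy.2 hz.1 hz.2 hk⟩

/-- **Theorem CCA**: every finitely generated subgroup acts, weakly acylindrically and with vertex stabilisers in the class, on
a median graph (the `1`-skeleton of a `CAT(0)` cube complex) of finite dimension -/
theorem median_main {C : (G : Type) → [Group G] → Prop} (hC : Inherits C) (hT : Transfer C) (G : Type) [Group G]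
    (h : ∀ K : Subgroup G, K.FG → ∃ (V : Type) (_ : MulAction K V) (X : SimpleGraph V) (n k N : ℕ), Median X ∧
      (∀ (g : K) (a b : V), X.Adj a b → X.Adj (g • a) (g • b)) ∧
      (∀ f : (Fin (n + 1) → Bool) → V, ¬ IsCube X (n + 1) f) ∧
      (∀ v : V, C (MulAction.stabilizer K v)) ∧
      ∀ v w : V, k ≤ X.dist v w → {g : K | g • v = v ∧ g • w = w}.encard ≤ N) : C G :=
  med_local hC (pf_all hC hT) G h

end Pool.Agent.H37.MG
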