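import Pool.Agent.H37.MG.Cub
import Pool.Agent.H37.CC.Defs
import Mathlib.Algebra.Group.Action.Pointwise.Set.Basic

/-!
# Median graphs, M5: the pocset of the half-spaces of a median graph

`Hx X`: the type of the half-spaces. `mpoc`: complements. `mact`: the action of a group of automorphisms. `vx x`: the half-spaces
which contain `x`. Vertices of the pocset at finite distance from `vx x` are the `vx z` (`vx_ex`), their distance is the distance of
the graph (`vx_dist`), the action is the same (`smul_vx`), `dim_of`: the dimension is at most `n` if there is no `(n + 1)`-cube.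
-/

set_option autoImplicit false

namespace Pool.Agent.H37.MG

open Pool.Agent.H37.CC (Poc st Crs IsVertex Dim PAct)
open scoped Pointwise

variable {V : Type} {X : SimpleGraph V}

/-- the type of the half-spaces -/
def Hx (X : SimpleGraph V) : Type := {h : Set V // h ∈ Hf X}

instance : PartialOrder (Hx X) := inferInstanceAs (PartialOrder {h : Set V // h ∈ Hf X})

/-- the underlying set -/
def hxv (h : Hx X) : Set V := h.1

theorem hxv_inj : Function.Injective (hxv : Hx X → Set V) := fun _ _ h => Subtype.ext h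

theorem hx_le {h k : Hx X} : h ≤ k ↔ h.1 ⊆ k.1 := Iff.rfl

/-- complements -/
@[reducible] def mpoc (hX : Median X) : Poc (Hx X) where
  st h := ⟨h.1ᶜ, compl_hf hX h.2⟩
  st_st h := Subtype.ext (compl_compl h.1)
  st_le {h k} e := Set.compl_subset_compl.2 (hx_le.1 e)
  not_le h e := by
    obtain ⟨p, hp⟩ := hf_nonempty h.2
    exact hx_le.1 e hp hp

/-- the half-spaces which contain a vertex -/
def vx (x : V) : Set (Hx X) := {h | x ∈ h.1}

theorem vx_vertex (hX : Median X) (x : V) : @IsVertex (Hx X) _ (mpoc hX) (vx x) :=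
  @IsVertex.mk (Hx X) _ (mpoc hX) _ (fun _ => Iff.rfl) (fun {_ _} h1 e => hx_le.1 e h1)

theorem vx_sdiff (x y : V) : hxv '' ((vx y : Set (Hx X)) \ vx x) = {h | h ∈ Hf X ∧ y ∈ h ∧ x ∉ h} := by
  ext h
  constructor
  · rintro ⟨k, ⟨h1, h2⟩, rfl⟩
    exact ⟨k.2, h1, h2⟩
  · rintro ⟨h1, h2, h3⟩
    exact ⟨⟨h, h1⟩, ⟨h2, h3⟩, rfl⟩

theorem vx_fin (hX : Median X) (x y : V) : ((vx y : Set (Hx X)) \ vx x).Finite := by
  refine Set.Finite.of_finite_image (f := hxv) ?_ hxv_inj.injOn
  rw [vx_sdiff]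
  exact sep_fin hX y x

theorem vx_dist (hX : Median X) (x y : V) : ((vx y : Set (Hx X)) \ vx x).ncard = X.dist y x := by
  rw [← sep_card hX y x, ← vx_sdiff, Set.ncard_image_of_injective _ hxv_inj]

theorem vx_inj (hX : Median X) {x y : V} (h : (vx x : Set (Hx X)) = vx y) : x = y := by
  refine eq_of_hf hX fun k hk => ?_
  have h1 : (⟨k, hk⟩ : Hx X) ∈ (vx x : Set (Hx X)) ↔ (⟨k, hk⟩ : Hx X) ∈ (vx y : Set (Hx X)) := by rw [h]
  exact h1

/-- vertices at finite distance -/
theorem vx_ex (hX : Median X) {x : V} {y : Set (Hx X)} (hy : @IsVertex (Hx X) _ (mpoc hX) y) (hf : (y \ vx x).Finite) :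
    ∃ z : V, y = vx z := by
  have hU : Ult X (hxv '' y) :=
    { sub := by
        rintro h ⟨k, _, rfl⟩
        exact k.2
      one := by
        intro h hh
        have h1 := @IsVertex.one (Hx X) _ (mpoc hX) y hy ⟨h, hh⟩
        constructor
        · rintro ⟨k, hk, h2⟩ ⟨k', hk', h3⟩
          have e1 : k = (⟨hᶜ, compl_hf hX hh⟩ : Hx X) := Subtype.ext h2
          have e2 : k' = (⟨h, hh⟩ : Hx X) := Subtype.ext h3
          rw [e1] at hk
          rw [e2] at hk'
          exact h1.1 hk hk'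
        · intro h2
          refine ⟨⟨hᶜ, compl_hf hX hh⟩, h1.2 fun h3 => h2 ⟨_, h3, rfl⟩, rfl⟩
      up := by
        rintro h ⟨k, hk, rfl⟩ l hl hkl
        exact ⟨⟨l, hl⟩, @IsVertex.up (Hx X) _ (mpoc hX) y hy k ⟨l, hl⟩ hk (hx_le.2 hkl), rfl⟩ }
  have hf' : {h | h ∈ hxv '' y ∧ x ∉ h}.Finite := by
    refine (hf.image hxv).subset ?_
    rintro h ⟨⟨k, hk, rfl⟩, h2⟩
    exact ⟨k, ⟨hk, h2⟩, rfl⟩
  obtain ⟨z, hz⟩ := dual hX hU hf'
  refine ⟨z, Set.ext fun h => ?_⟩
  rw [show h ∈ (vx z : Set (Hx X)) ↔ z ∈ h.1 from Iff.rfl, ← hz h.1 h.2]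
  constructor
  · intro h1
    exact ⟨h, h1, rfl⟩
  · rintro ⟨k, hk, h2⟩
    have e : k = h := Subtype.ext h2
    rwa [e] at hk

/-- the dimension -/
theorem dim_of (hX : Median X) {n : ℕ} (hn : ∀ f : (Fin (n + 1) → Bool) → V, ¬ IsCube X (n + 1) f) :
    @Dim (Hx X) _ (mpoc hX) n := by
  intro F hF
  by_contra hcon
  obtain ⟨F', hF', hc⟩ := Finset.exists_subset_card_eq (s := F) (n := n + 1) (by omega)
  obtain ⟨e⟩ : Nonempty (Fin (n + 1) ≃ F') := ⟨(Fintype.equivFinOfCardEq (by rw [Fintype.card_coe, hc])).symm⟩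
  obtain ⟨f, hf⟩ := exists_cube hX (fun i => (e i).1.1) (fun i => (e i).1.2) (by
    intro i j hij
    have hne : (e i).1 ≠ (e j).1 := fun h => hij (e.injective (Subtype.ext h))
    obtain ⟨c1, c2, c3, c4⟩ := hF _ (hF' (e i).2) _ (hF' (e j).2) hne
    have e1 : ∀ A B : Set V, ¬ A ⊆ B → (A ∩ Bᶜ).Nonempty := fun A B => Set.inter_compl_nonempty_iff.2
    refine ⟨?_, e1 _ _ c1, ?_, ?_⟩
    · have h3 : ((e i).1.1 ∩ ((e j).1.1ᶜ)ᶜ).Nonempty := e1 _ _ c3
      rwa [compl_compl] at h3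
    · rw [Set.inter_comm]
      exact e1 _ _ c2
    · rw [Set.inter_comm]
      exact e1 _ _ c4)
  exact hn f hf

section act

variable {G : Type} [Group G] [MulAction G V]

theorem dist_act (hadj : ∀ (g : G) (x y : V), X.Adj x y → X.Adj (g • x) (g • y)) (hX : Median X) (g : G) (x y : V) :
    X.dist (g • x) (g • y) = X.dist x y := by
  have key : ∀ (g : G) (x y : V), X.dist (g • x) (g • y) ≤ X.dist x y := by
    intro g x y
    obtain ⟨p, hp⟩ := hX.conn.exists_walk_length_eq_dist x y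
    have h1 := SimpleGraph.dist_le (p.map (⟨fun z => g • z, fun {a b} h => hadj g a b h⟩ : X →g X))
    rwa [SimpleGraph.Walk.length_map, hp] at h1
  refine le_antisymm (key g x y) ?_
  have h2 := key g⁻¹ (g • x) (g • y)
  rwa [inv_smul_smul, inv_smul_smul] at h2

theorem smul_wd (hadj : ∀ (g : G) (x y : V), X.Adj x y → X.Adj (g • x) (g • y)) (hX : Median X) (g : G) (a b : V) :
    g • Wd X a b = Wd X (g • a) (g • b) := by
  ext z
  rw [Set.mem_smul_set_iff_inv_smul_mem]
  have h1 : ∀ c : V, X.dist z (g • c) = X.dist (g⁻¹ • z) c := fun c => by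
    rw [← dist_act hadj hX g (g⁻¹ • z) c, smul_inv_smul]
  show X.dist (g⁻¹ • z) a < X.dist (g⁻¹ • z) b ↔ X.dist z (g • a) < X.dist z (g • b)
  rw [h1, h1]

theorem smul_hf (hadj : ∀ (g : G) (x y : V), X.Adj x y → X.Adj (g • x) (g • y)) (hX : Median X) (g : G) {h : Set V}
    (hh : h ∈ Hf X) : g • h ∈ Hf X := by
  obtain ⟨a, b, hab, rfl⟩ := hh
  exact ⟨g • a, g • b, hadj g a b hab, smul_wd hadj hX g a b⟩

/-- the action on the half-spaces -/
@[reducible] def mact (hadj : ∀ (g : G) (x y : V), X.Adj x y → X.Adj (g • x) (g • y)) (hX : Median X) :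
    MulAction G (Hx X) where
  smul g h := ⟨g • h.1, smul_hf hadj hX g h.2⟩
  one_smul h := Subtype.ext (one_smul G h.1)
  mul_smul g g' h := Subtype.ext (mul_smul g g' h.1)

theorem mpact (hadj : ∀ (g : G) (x y : V), X.Adj x y → X.Adj (g • x) (g • y)) (hX : Median X) :
    @PAct G (Hx X) _ _ (mpoc hX) (mact hadj hX) :=
  @PAct.mk G (Hx X) _ _ (mpoc hX) (mact hadj hX) (fun _ _ _ => Set.smul_set_subset_smul_set_iff)
    (fun g h => Subtype.ext (Set.smul_set_compl (s := h.1) (a := g)))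

/-- the action on the vertices -/
theorem smul_vx (hadj : ∀ (g : G) (x y : V), X.Adj x y → X.Adj (g • x) (g • y)) (hX : Median X) (g : G) (x : V) :
    (letI := mact hadj hX; g • (vx x : Set (Hx X))) = vx (g • x) := by
  letI := mact hadj hX
  ext h
  rw [Set.mem_smul_set_iff_inv_smul_mem]
  show x ∈ g⁻¹ • h.1 ↔ g • x ∈ h.1
  rw [Set.mem_inv_smul_set_iff]

theorem smul_vx_iff (hadj : ∀ (g : G) (x y : V), X.Adj x y → X.Adj (g • x) (g • y)) (hX : Median X) (g : G) (x : V) :
    (letI := mact hadj hX; g • (vx x : Set (Hx X))) = vx x ↔ g • x = x := by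
  constructor
  · intro h
    rw [smul_vx] at h
    exact vx_inj hX h
  · intro h
    rw [smul_vx, h]

end act

end Pool.Agent.H37.MG
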