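import Pool.Agent.H37.MG.W
import Pool.Agent.H54.MG.Pc

/-!
# Median graphs, M2: the number of half-spaces between two vertices is the distance

Let `p_0 .. p_d` be a geodesic from `x` to `y`. Every half-space `h` with `x ∈ h`, `y ∉ h` is left along some edge, so it is `Wd p_i p_(i+1)`
(`wall_eq`). These are different (`p_(i+1)` is in `Wd p_j p_(j+1)` for `i < j`, not in `Wd p_i p_(i+1)`) and contain `x`, not `y`.
-/

set_option autoImplicit false

namespace Pool.Agent.H37.MG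

variable {V : Type} {X : SimpleGraph V}

theorem Median.med54 (hX : Median X) : Pool.Agent.H54.MG.Med X := ⟨hX.conn, hX.med⟩

theorem compl_hf (hX : Median X) {h : Set V} (hh : h ∈ Hf X) : hᶜ ∈ Hf X := by
  obtain ⟨a, b, hab, rfl⟩ := hh
  exact ⟨b, a, hab.symm, compl_wd hX hab⟩

theorem hf_nonempty {h : Set V} (hh : h ∈ Hf X) : h.Nonempty := by
  obtain ⟨a, b, hab, rfl⟩ := hh
  exact ⟨a, Pool.Agent.H54.MG.left_mem_W hab⟩

theorem sep_image (hX : Median X) (x y : V) : {h | h ∈ Hf X ∧ x ∈ h ∧ y ∉ h} =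
    (fun h : Pool.Agent.H54.MG.HS X => h.1) '' (Pool.Agent.H54.MG.pr X x \ Pool.Agent.H54.MG.pr X y) := by
  ext h
  constructor
  · rintro ⟨⟨a, b, hab, rfl⟩, h1, h2⟩
    exact ⟨⟨Wd X a b, a, b, hab, rfl, compl_wd hX hab⟩, ⟨h1, h2⟩, rfl⟩
  · rintro ⟨k, ⟨h1, h2⟩, rfl⟩
    obtain ⟨a, b, hab, h3, _⟩ := k.2
    exact ⟨⟨a, b, hab, h3⟩, h1, h2⟩

theorem sep_fin (hX : Median X) (x y : V) : {h | h ∈ Hf X ∧ x ∈ h ∧ y ∉ h}.Finite := by
  rw [sep_image hX]
  exact (Pool.Agent.H54.MG.fin_diff hX.med54 y x).image _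

theorem sep_card (hX : Median X) (x y : V) : {h | h ∈ Hf X ∧ x ∈ h ∧ y ∉ h}.ncard = X.dist x y := by
  have hinj : Function.Injective (fun h : Pool.Agent.H54.MG.HS X => h.1) := fun _ _ e => Subtype.ext e
  rw [sep_image hX, Set.ncard_image_of_injective _ hinj, Pool.Agent.H54.MG.ncard_diff hX.med54,
    SimpleGraph.dist_comm]

/-- only one half-space is left along an edge -/
theorem sep_adj (hX : Median X) {x y : V} (h : X.Adj x y) {k : Set V} (hk : k ∈ Hf X) (hx : x ∈ k) (hy : y ∉ k) :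
    k = Wd X x y := by
  obtain ⟨a, b, hab, rfl⟩ := hk
  exact (wall_eq hX hab h hx hy).symm

end Pool.Agent.H37.MG
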