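import Pool.Agent.H37.MG.Defs

/-!
# Median graphs, M1: walls

`dist_ne`: the median of `z, a, b` is `a` or `b`. `sq_eq`: a square `a b d c` (`a ~ b ~ d ~ c ~ a`): if `z` is closer to `a` than to `b` but
closer to `d` than to `c`: let `p = dist z a`; `dist z c = p - 1` is impossible (`dist z d = p - 2`, `b ~ d`, `dist z b = p + 1`), so
`dist z c = p + 1`, `dist z d = p`, and `a`, `d` are two different medians of `z, b, c`. `wall_eq`: induction on `k = dist a c`. `k = 0`: `c = a`,
`dist d b < dist d a = 1`, `d = b`. Step: `dist c b = k + 1`; `dist d a = k + 1`, `dist d b = k` (`dist d a = k - 1` would give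
`dist d b = k - 2`, `dist c b ≤ k - 1`). Let `c'` be a neighbour of `c` with `dist c' a = k - 1`: `dist c' b = k`, `dist c' d = 2`; `d'` = the median
of `c', d, b`: adjacent to `c'` and `d`, `dist d' b = k - 1`, `dist d' a = k`. Induction for `c' d'`, square `c c' d' d`.
-/

set_option autoImplicit false

namespace Pool.Agent.H37.MG

variable {V : Type} {X : SimpleGraph V}

theorem dist_ne (hX : Median X) {a b : V} (h : X.Adj a b) (z : V) : X.dist z a ≠ X.dist z b := by
  intro e
  obtain ⟨m, ⟨h1, h2, h3⟩, -⟩ := hX.med z a b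
  have h4 : X.dist a b = 1 := SimpleGraph.dist_eq_one_iff_adj.2 h
  have h5 : X.dist a m = X.dist m a := SimpleGraph.dist_comm
  omega

/-- the distances to the ends of an edge differ by one -/
theorem w_step (hX : Median X) {a b : V} (h : X.Adj a b) (z : V) :
    X.dist z b = X.dist z a + 1 ∨ X.dist z a = X.dist z b + 1 := by
  have h1 : X.dist a b = 1 := SimpleGraph.dist_eq_one_iff_adj.2 h
  have h2 : X.dist b a = 1 := SimpleGraph.dist_eq_one_iff_adj.2 h.symm
  have h3 : X.dist z b ≤ X.dist z a + X.dist a b := hX.conn.dist_triangle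
  have h4 : X.dist z a ≤ X.dist z b + X.dist b a := hX.conn.dist_triangle
  have h5 := dist_ne hX h z
  omega

/-- two different vertices with a common neighbour and equal distance from `z` have distance two -/
theorem w_two (hX : Median X) {a b c : V} (hab : X.Adj a b) (hac : X.Adj a c) (hbc : b ≠ c) (z : V)
    (e : X.dist z b = X.dist z c) : X.dist b c = 2 := by
  have h1 : X.dist b a = 1 := SimpleGraph.dist_eq_one_iff_adj.2 hab.symm
  have h2 : X.dist a c = 1 := SimpleGraph.dist_eq_one_iff_adj.2 hac
  have h3 : X.dist b c ≤ X.dist b a + X.dist a c := hX.conn.dist_triangle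
  have h4 : X.dist b c ≠ 0 := fun h => hbc (hX.conn.dist_eq_zero_iff.1 h)
  have h5 : X.dist b c ≠ 1 := fun h => dist_ne hX (SimpleGraph.dist_eq_one_iff_adj.1 h) z e
  omega

theorem compl_wd (hX : Median X) {a b : V} (h : X.Adj a b) : (Wd X a b)ᶜ = Wd X b a := by
  ext z
  have h1 := dist_ne hX h z
  show ¬ X.dist z a < X.dist z b ↔ X.dist z b < X.dist z a
  omega

theorem w_sub (hX : Median X) {a b c d : V} (hab : X.Adj a b) (hcd : X.Adj c d) (hac : X.Adj a c) (hbd : X.Adj b d)
    (had : a ≠ d) (hbc : b ≠ c) : Wd X a b ⊆ Wd X c d := by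
  intro z hz
  have hz' : X.dist z a < X.dist z b := hz
  show X.dist z c < X.dist z d
  by_contra hcon
  have h1 := w_step hX hab z
  have h2 := w_step hX hcd z
  have h3 := w_step hX hac z
  have h4 := w_step hX hbd z
  have h5 : X.dist z b = X.dist z c := by omega
  have h6 := w_two hX hab hac hbc z h5
  have g1 : X.dist a b = 1 := SimpleGraph.dist_eq_one_iff_adj.2 hab
  have g2 : X.dist b a = 1 := SimpleGraph.dist_eq_one_iff_adj.2 hab.symm
  have g3 : X.dist a c = 1 := SimpleGraph.dist_eq_one_iff_adj.2 hac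
  have g4 : X.dist d b = 1 := SimpleGraph.dist_eq_one_iff_adj.2 hbd.symm
  have g5 : X.dist b d = 1 := SimpleGraph.dist_eq_one_iff_adj.2 hbd
  have g6 : X.dist d c = 1 := SimpleGraph.dist_eq_one_iff_adj.2 hcd.symm
  refine had ((hX.med z b c).unique ⟨?_, ?_, ?_⟩ ⟨?_, ?_, ?_⟩) <;> omega

/-- squares -/
theorem sq_eq (hX : Median X) {a b c d : V} (hab : X.Adj a b) (hcd : X.Adj c d) (hac : X.Adj a c) (hbd : X.Adj b d)
    (had : a ≠ d) (hbc : b ≠ c) : Wd X a b = Wd X c d :=
  Set.Subset.antisymm (w_sub hX hab hcd hac hbd had hbc)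
    (w_sub hX hcd hab hac.symm hbd.symm hbc.symm had.symm)

/-- a neighbour of `c` which is closer to `a` -/
theorem w_nbr (hX : Median X) {a c : V} {k : ℕ} (h : X.dist c a = k + 1) : ∃ c', X.Adj c c' ∧ X.dist c' a = k := by
  obtain ⟨p, hp⟩ := hX.conn.exists_walk_length_eq_dist c a
  cases p with
  | nil =>
    simp only [SimpleGraph.Walk.length_nil] at hp
    omega
  | @cons _ c' _ e q =>
    refine ⟨c', e, ?_⟩
    rw [SimpleGraph.Walk.length_cons] at hp
    have h1 : X.dist c' a ≤ q.length := SimpleGraph.dist_le q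
    have h2 : X.dist c c' = 1 := SimpleGraph.dist_eq_one_iff_adj.2 e
    have h3 : X.dist c a ≤ X.dist c c' + X.dist c' a := hX.conn.dist_triangle
    omega

theorem w_wall (hX : Median X) {a b : V} (hab : X.Adj a b) (k : ℕ) : ∀ c d : V, X.dist c a = k → X.Adj c d →
    c ∈ Wd X a b → d ∉ Wd X a b → Wd X c d = Wd X a b := by
  induction k with
  | zero =>
    intro c d hk hcd hc hd
    have hc' : X.dist c a < X.dist c b := hc
    have hd' : ¬ X.dist d a < X.dist d b := hd
    have e1 : c = a := hX.conn.dist_eq_zero_iff.1 hk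
    subst e1
    have h1 : X.dist d c = 1 := SimpleGraph.dist_eq_one_iff_adj.2 hcd.symm
    have h2 := w_step hX hab d
    have h3 : X.dist d b = 0 := by omega
    have e2 : d = b := hX.conn.dist_eq_zero_iff.1 h3
    rw [e2]
  | succ k ih =>
    intro c d hk hcd hc hd
    have hc' : X.dist c a < X.dist c b := hc
    have hd' : ¬ X.dist d a < X.dist d b := hd
    have h1 := w_step hX hab c
    have h2 := w_step hX hab d
    have h3 := w_step hX hcd a
    have h4 := w_step hX hcd b
    have s1 : X.dist a c = X.dist c a := SimpleGraph.dist_comm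
    have s2 : X.dist a d = X.dist d a := SimpleGraph.dist_comm
    have s3 : X.dist b c = X.dist c b := SimpleGraph.dist_comm
    have s4 : X.dist b d = X.dist d b := SimpleGraph.dist_comm
    obtain ⟨c', hcc, hc1⟩ := w_nbr hX hk
    have h5 := w_step hX hcc b
    have h6 := w_step hX hab c'
    have s5 : X.dist b c' = X.dist c' b := SimpleGraph.dist_comm
    have hc'b : X.dist c' b = k + 1 := by omega
    have hdb : X.dist d b = k + 1 := by omega
    have hda : X.dist d a = k + 2 := by omega
    have hne : c' ≠ d := by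
      intro e
      rw [e] at hc1
      omega
    have h7 : X.dist c' d = 2 := w_two hX hcc hcd hne b (by omega)
    obtain ⟨d', ⟨m1, m2, m3⟩, -⟩ := hX.med c' d b
    have s6 : X.dist d d' = X.dist d' d := SimpleGraph.dist_comm
    have e1 : X.dist c' d' = 1 := by omega
    have e2 : X.dist d' d = 1 := by omega
    have hd'b : X.dist d' b = k := by omega
    have a1 : X.Adj c' d' := SimpleGraph.dist_eq_one_iff_adj.1 e1
    have a2 : X.Adj d' d := SimpleGraph.dist_eq_one_iff_adj.1 e2
    have h8 := w_step hX a1 a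
    have h9 := w_step hX a2 a
    have s7 : X.dist a c' = X.dist c' a := SimpleGraph.dist_comm
    have s8 : X.dist a d' = X.dist d' a := SimpleGraph.dist_comm
    have hd'a : X.dist d' a = k + 1 := by omega
    have h10 : Wd X c' d' = Wd X a b := by
      refine ih c' d' hc1 a1 ?_ ?_
      · show X.dist c' a < X.dist c' b
        omega
      · show ¬ X.dist d' a < X.dist d' b
        omega
    have hne2 : d' ≠ c := by
      intro e
      rw [e] at hd'b
      omega
    rw [← h10]
    exact (sq_eq hX a1 hcd hcc.symm a2 hne hne2).symm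

/-- an edge which crosses a wall defines it -/
theorem wall_eq (hX : Median X) {a b c d : V} (hab : X.Adj a b) (hcd : X.Adj c d) (hc : c ∈ Wd X a b) (hd : d ∉ Wd X a b) :
    Wd X c d = Wd X a b :=
  w_wall hX hab _ c d rfl hcd hc hd

/-- two walls at a vertex `a` which cross span a square -/
theorem exists_square (hX : Median X) {a b a' z : V} (hab : X.Adj a b) (haa : X.Adj a a') (h1 : z ∈ Wd X b a)
    (h2 : z ∈ Wd X a' a) (hne : b ≠ a') : ∃ c, X.Adj b c ∧ X.Adj a' c ∧ c ≠ a ∧ Wd X c a' = Wd X b a := by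
  have h1' : X.dist z b < X.dist z a := h1
  have h2' : X.dist z a' < X.dist z a := h2
  have h3 := w_step hX hab z
  have h4 := w_step hX haa z
  have h5 : X.dist b a' = 2 := w_two hX hab haa hne z (by omega)
  obtain ⟨c, ⟨m1, m2, m3⟩, -⟩ := hX.med z b a'
  have s1 : X.dist b c = X.dist c b := SimpleGraph.dist_comm
  have e1 : X.dist b c = 1 := by omega
  have e2 : X.dist c a' = 1 := by omega
  have a1 : X.Adj b c := SimpleGraph.dist_eq_one_iff_adj.1 e1
  have a2 : X.Adj c a' := SimpleGraph.dist_eq_one_iff_adj.1 e2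
  have hca : c ≠ a := by
    intro e
    rw [e] at m1
    omega
  exact ⟨c, a1, a2.symm, hca, (sq_eq hX hab.symm a2 a1 haa hne hca.symm).symm⟩

end Pool.Agent.H37.MG
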